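import Pool.Agent.Helper19.HV.XS

/-!
Project HV, module CA1: basic relations of a form for a coordinate.
-/

set_option autoImplicit false

open Polynomial

namespace Pool.Agent.Helper19.HV

noncomputable section

open PL

private theorem ca1_sub_ne {F : Type} [Field F] {Y S : RatFunc F → Prop} (hC : Crd Y S)
    {y : RatFunc F} (hy : Y y) (l : F) : y - RatFunc.C l ≠ 0 :=
  sub_ne_zero.2 (hC.nc y hy l)

private theorem ca1_c2 {F : Type} [Field F] {φ : F4 F} (hφ : Frm φ) (c : F)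
    (w a b : V (RatFunc F)) : φ w a (lg (RatFunc.C c)) b = 0 := by
  rw [hφ.s12, hφ.c1]

private theorem ca1_c3 {F : Type} [Field F] {φ : F4 F} (hφ : Frm φ) (c : F)
    (w a b : V (RatFunc F)) : φ w a b (lg (RatFunc.C c)) = 0 := by
  rw [hφ.s23, ca1_c2 hφ]

private theorem ca1_drop {F : Type} [Field F] {φ : F4 F} (hφ : Frm φ) (c d : F)
    (A B : V (RatFunc F)) :
    φ (A + lg (RatFunc.C c)) (B + lg (RatFunc.C d)) (B + lg (RatFunc.C d))
      (B + lg (RatFunc.C d)) = φ A B B B := by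
  simp only [map_add, LinearMap.add_apply, hφ.c0, hφ.c1, ca1_c2 hφ, ca1_c3 hφ, add_zero]

private theorem ca1_exp3 {F : Type} [Field F] {φ : F4 F} (hφ : Frm φ) (w a b : V (RatFunc F)) :
    φ w (a - b) (a - b) (a - b) =
      φ w a a a - 3 * φ w a a b + 3 * φ w a b b - φ w b b b := by
  have h1 : φ w a b a = φ w a a b := hφ.s23 _ _ _ _
  have h2 : φ w b a a = φ w a a b := by rw [hφ.s12, h1]
  have h3 : φ w b a b = φ w a b b := hφ.s12 _ _ _ _
  have h4 : φ w b b a = φ w a b b := by rw [hφ.s23, h3]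
  simp only [map_sub, LinearMap.sub_apply, h1, h2, h3, h4]
  ring

private theorem ca1_diag {F : Type} [Field F] {φ : F4 F} (hφ : Frm φ) (a b : V (RatFunc F))
    (h : φ b a a a = 0) (h' : φ a b b b = 0) : φ a a a b = 0 := by
  have h1 : ∀ w, φ w a b a = φ w a a b := fun w => hφ.s23 _ _ _ _
  have h2 : ∀ w, φ w b a a = φ w a a b := fun w => by rw [hφ.s12, h1]
  have h3 : ∀ w, φ w b a b = φ w a b b := fun w => hφ.s12 _ _ _ _
  have h4 : ∀ w, φ w b b a = φ w a b b := fun w => by rw [hφ.s23, h3]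
  have d1 := hφ.diag (a + b)
  have d2 := hφ.diag (a - b)
  have d3 := hφ.diag (a + a + b)
  have da := hφ.diag a
  have db := hφ.diag b
  simp only [map_add, map_sub, LinearMap.add_apply, LinearMap.sub_apply, h1, h2, h3, h4, h, h',
    da, db] at d1 d2 d3
  linarith

private theorem ca1_i {F : Type} [Field F] {φ : F4 F} (hφ : Frm φ) {Y S : RatFunc F → Prop}
    (hC : Crd Y S) (hS : ∀ x, S x → Sv φ x) {y : RatFunc F} (hy : Y y) (l n : F) :
    φ (e y n) (e y l) (e y l) (e y l) = 0 := by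
  by_cases hnl : n = l
  · subst hnl; exact hφ.diag _
  have hd : n - l ≠ 0 := sub_ne_zero.2 hnl
  have hdC : (RatFunc.C (n - l) : RatFunc F) ≠ 0 := C_ne hd
  have hx : S ((y - RatFunc.C l) / RatFunc.C (n - l)) := by
    have := hC.sy y hy 0 1 (-l) 0 0 (n - l)
    simpa [sub_eq_add_neg] using this
  have h1 : lg ((y - RatFunc.C l) / RatFunc.C (n - l)) = e y l + lg (RatFunc.C (n - l)⁻¹) := by
    rw [lg_div' (ca1_sub_ne hC hy l) hdC, map_inv₀, lg_inv, e, sub_eq_add_neg]
  have h2 : 1 - (y - RatFunc.C l) / RatFunc.C (n - l) =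
      -((y - RatFunc.C n) / RatFunc.C (n - l)) := by
    field_simp
    rw [map_sub]
    ring
  have h3 : lg (1 - (y - RatFunc.C l) / RatFunc.C (n - l)) =
      e y n + lg (RatFunc.C (n - l)⁻¹) := by
    rw [h2, lg_neg, lg_div' (ca1_sub_ne hC hy n) hdC, map_inv₀, lg_inv, e, sub_eq_add_neg]
  have h4 := hS _ hx
  unfold Sv at h4
  rw [h1, h3, ca1_drop hφ] at h4
  exact h4

private theorem ca1_a {F : Type} [Field F] {φ : F4 F} (hφ : Frm φ) {Y S : RatFunc F → Prop}
    (hC : Crd Y S) (hS : ∀ x, S x → Sv φ x) {y : RatFunc F} (hy : Y y) {l m : F} (hlm : l ≠ m) :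
    φ (e y m) (e y l - e y m) (e y l - e y m) (e y l - e y m) = 0 := by
  have hm := ca1_sub_ne hC hy m
  have hl := ca1_sub_ne hC hy l
  have hd : (RatFunc.C (l - m) : RatFunc F) ≠ 0 := C_ne (sub_ne_zero.2 hlm)
  have hx : S ((y - RatFunc.C l) / (y - RatFunc.C m)) := by
    have := hC.sy y hy 0 1 (-l) 0 1 (-m)
    simpa [sub_eq_add_neg] using this
  have h1 : lg ((y - RatFunc.C l) / (y - RatFunc.C m)) =
      (e y l - e y m) + lg (RatFunc.C (1 : F)) := by
    rw [lg_div' hl hm, map_one, lg_one, add_zero, e, e]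
  have h2 : 1 - (y - RatFunc.C l) / (y - RatFunc.C m) =
      RatFunc.C (l - m) / (y - RatFunc.C m) := by
    field_simp
    rw [map_sub]
    ring
  have h3 : lg (1 - (y - RatFunc.C l) / (y - RatFunc.C m)) =
      - e y m + lg (RatFunc.C (l - m)) := by
    rw [h2, lg_div' hd hm, e]
    abel
  have h4 := hS _ hx
  unfold Sv at h4
  rw [h1, h3, ca1_drop hφ, map_neg] at h4
  simpa only [LinearMap.neg_apply, neg_eq_zero] using h4

private theorem ca1_b {F : Type} [Field F] {φ : F4 F} (hφ : Frm φ) {Y S : RatFunc F → Prop}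
    (hC : Crd Y S) (hS : ∀ x, S x → Sv φ x) {y : RatFunc F} (hy : Y y) {l m n : F} (hlm : l ≠ m)
    (hnl : n ≠ l) (hnm : n ≠ m) :
    φ (e y n) (e y l - e y m) (e y l - e y m) (e y l - e y m) = 0 := by
  have hm := ca1_sub_ne hC hy m
  have hl := ca1_sub_ne hC hy l
  have hn := ca1_sub_ne hC hy n
  have h0 : n - l ≠ 0 := sub_ne_zero.2 hnl
  have h0' : n - m ≠ 0 := sub_ne_zero.2 hnm
  obtain ⟨c, hc⟩ : ∃ c : F, c = (n - m) / (n - l) := ⟨_, rfl⟩
  have hc0 : c ≠ 0 := by rw [hc]; exact div_ne_zero h0' h0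
  have hc1 : 1 - c = (m - l) / (n - l) := by rw [hc]; field_simp; ring
  have hc1' : 1 - c ≠ 0 := by
    rw [hc1]; exact div_ne_zero (sub_ne_zero.2 (Ne.symm hlm)) h0
  have hcn : (1 - c) * n = m - c * l := by
    rw [hc]; field_simp; ring
  have hx : S (RatFunc.C c * ((y - RatFunc.C l) / (y - RatFunc.C m))) := by
    have := hC.sy y hy 0 c (-(c * l)) 0 1 (-m)
    have h5 : (RatFunc.C (0 : F) * y ^ 2 + RatFunc.C c * y + RatFunc.C (-(c * l))) /
        (RatFunc.C (0 : F) * y ^ 2 + RatFunc.C (1 : F) * y + RatFunc.C (-m)) =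
        RatFunc.C c * ((y - RatFunc.C l) / (y - RatFunc.C m)) := by
      rw [mul_div_assoc']
      congr 1
      · rw [map_neg, map_mul, map_zero]; ring
      · rw [map_neg, map_zero, map_one]; ring
    rwa [h5] at this
  have h1 : lg (RatFunc.C c * ((y - RatFunc.C l) / (y - RatFunc.C m))) =
      (e y l - e y m) + lg (RatFunc.C c) := by
    rw [lg_mul (C_ne hc0) (div_ne_zero hl hm), lg_div' hl hm, e, e]
    abel
  have h2 : 1 - RatFunc.C c * ((y - RatFunc.C l) / (y - RatFunc.C m)) =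
      RatFunc.C (1 - c) * ((y - RatFunc.C n) / (y - RatFunc.C m)) := by
    have h6 : (RatFunc.C (1 - c) : RatFunc F) * RatFunc.C n =
        RatFunc.C m - RatFunc.C c * RatFunc.C l := by
      rw [← map_mul, hcn, map_sub, map_mul]
    have h7 : (RatFunc.C (1 - c) : RatFunc F) = 1 - RatFunc.C c := by rw [map_sub, map_one]
    field_simp
    linear_combination h6 - y * h7
  have h3 : lg (1 - RatFunc.C c * ((y - RatFunc.C l) / (y - RatFunc.C m))) =
      (e y n - e y m) + lg (RatFunc.C (1 - c)) := by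
    rw [h2, lg_mul (C_ne hc1') (div_ne_zero hn hm), lg_div' hn hm, e, e]
    abel
  have h4 := hS _ hx
  unfold Sv at h4
  rw [h1, h3, ca1_drop hφ] at h4
  have h5 := ca1_a hφ hC hS hy hlm
  simp only [map_sub, LinearMap.sub_apply] at h4 h5 ⊢
  linarith

theorem mCA1 {F : Type} [Field F] {φ : F4 F} (hφ : Frm φ) {Y S : RatFunc F → Prop}
    (hC : Crd Y S) (hS : ∀ x, S x → Sv φ x) {y : RatFunc F} (hy : Y y) : Cal φ y := by
  intro l m n
  have hi := fun l n => ca1_i hφ hC hS hy l n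
  refine ⟨hi l n, ?_, ca1_diag hφ _ _ (hi l m) (hi m l)⟩
  by_cases hlm : l = m
  · subst hlm; rfl
  have hf : φ (e y n) (e y l - e y m) (e y l - e y m) (e y l - e y m) = 0 := by
    by_cases hnm : n = m
    · subst hnm; exact ca1_a hφ hC hS hy hlm
    by_cases hnl : n = l
    · subst hnl
      have h1 := ca1_a hφ hC hS hy (Ne.symm hlm)
      simp only [map_sub, LinearMap.sub_apply] at h1 ⊢
      linarith
    · exact ca1_b hφ hC hS hy hlm hnl hnm
  rw [ca1_exp3 hφ, hi l n, hi m n] at hf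
  linarith

end

end Pool.Agent.Helper19.HV
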