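import Pool.Agent.Helper19.HV.StC

/-!
Project HV, module REX: the residues as finitely supported functions.
-/

set_option autoImplicit false

open scoped TensorProduct

namespace Pool.Agent.Helper19.HV

noncomputable section

open PL

private def rexPt {F : Type} [Field F] {X : Set (P1 F)} (x : X) : F := Option.getD x.1 0

private theorem rex_inj {F : Type} [Field F] {X : Set (P1 F)} (hX : none ∉ X) :
    Function.Injective (rexPt : X → F) := by
  rintro ⟨x, hx⟩ ⟨y, hy⟩ h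
  rcases x with _ | x
  · exact absurd hx hX
  rcases y with _ | y
  · exact absurd hy hX
  have h' : x = y := h
  subst h'
  rfl

/-- The finitely supported residue. -/
private def rexMap {F : Type} [Field F] {X : Set (P1 F)} (hX : none ∉ X)
    (ρ : ∀ (_ : F) (k j : ℕ), Γ (RatFunc F) k (j + 1) →ₗ[ℚ] Γ F k j)
    (hf : ∀ k j w, {a | ρ a k j w ≠ 0}.Finite) (k j : ℕ) :
    Γ (RatFunc F) k (j + 1) →ₗ[ℚ] (X →₀ Γ F k j) where
  toFun w := Finsupp.ofSupportFinite (fun x : X => ρ (rexPt x) k j w)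
    ((hf k j w).preimage ((rex_inj hX).injOn))
  map_add' v w := by
    ext x
    simp [Finsupp.ofSupportFinite_coe]
  map_smul' c w := by
    ext x
    simp [Finsupp.ofSupportFinite_coe]

private theorem rexMap_apply {F : Type} [Field F] {X : Set (P1 F)} (hX : none ∉ X)
    (ρ : ∀ (_ : F) (k j : ℕ), Γ (RatFunc F) k (j + 1) →ₗ[ℚ] Γ F k j)
    (hf : ∀ k j w, {a | ρ a k j w ≠ 0}.Finite) (k j : ℕ) (w : Γ (RatFunc F) k (j + 1)) (x : X) :
    rexMap hX ρ hf k j w x = ρ (rexPt x) k j w := rfl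

private def rexRes {F : Type} [Field F] {X : Set (P1 F)} (hX : none ∉ X)
    (ρ : ∀ (_ : F) (k j : ℕ), Γ (RatFunc F) k (j + 1) →ₗ[ℚ] Γ F k j)
    (hf : ∀ k j w, {a | ρ a k j w ≠ 0}.Finite) : Res F X :=
  fun k j => (rexMap hX ρ hf k j : Γ (RatFunc F) k (j + 1) →ₗ[ℚ] (X →₀ Γ F k j))

private theorem rexRes_ev {F : Type} [Field F] {X : Set (P1 F)} (hX : none ∉ X)
    (ρ : ∀ (_ : F) (k j : ℕ), Γ (RatFunc F) k (j + 1) →ₗ[ℚ] Γ F k j)
    (hf : ∀ k j w, {a | ρ a k j w ≠ 0}.Finite) (k j : ℕ) (w : Γ (RatFunc F) k (j + 1))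
    (a : F) (ha : some a ∈ X) :
    ev k j (rexRes hX ρ hf k j w) ⟨some a, ha⟩ = ρ a k j w := rfl

/-- Evaluation as a linear map. -/
private def rexEv {F : Type} [Field F] {X : Set (P1 F)} (k j : ℕ) (x : X) :
    ΓP F X k j →ₗ[ℚ] Γ F k j :=
  (show (X →₀ Γ F k j) →ₗ[ℚ] Γ F k j from Finsupp.lapply x)

private theorem rexEv_apply {F : Type} [Field F] {X : Set (P1 F)} (k j : ℕ) (x : X)
    (y : ΓP F X k j) : rexEv k j x y = ev k j y x := rfl

theorem mREX : sREX := by
  intro F _ X hX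
  refine ⟨?_, ?_⟩
  · rintro ⟨ρ, h1, hf⟩
    refine ⟨rexRes hX ρ hf, ?_, ?_, ?_, ?_⟩
    · intro j a ha u c hu
      rw [rexRes_ev]
      exact (h1 a).one j u c hu
    · intro j a ha u c hu
      rw [rexRes_ev]
      exact (h1 a).one0 j u c hu
    · intro q j a ha x u c hu
      rw [rexRes_ev]
      exact (h1 a).two q j x u c hu
    · intro q j a ha x u c hu
      rw [rexRes_ev]
      exact (h1 a).two0 q j x u c hu
  · intro r hr a ha
    refine ⟨fun k j => rexEv k j ⟨some a, ha⟩ ∘ₗ r k j, ⟨?_, ?_, ?_, ?_⟩, ?_⟩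
    · intro j u c hu
      exact hr.one j a ha u c hu
    · intro j u c hu
      exact hr.one0 j a ha u c hu
    · intro q j x u c hu
      exact hr.two q j a ha x u c hu
    · intro q j x u c hu
      exact hr.two0 q j a ha x u c hu
    · intro k j w
      rfl

end

end Pool.Agent.Helper19.HV
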